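import Mathlib
import Pool.Agent.Q223.ML.Main

/-!
# L(2,1)-labelings of iterated Mycielski graphs

For every finite graph `G` of order `n ≥ 1` and maximum degree `Δ` and every `t ≥ 1`,
`λ(M^t(G)) ≤ (2^t − 1)(n + 1) + Δ²`.
-/

set_option autoImplicit false

namespace Pool.Agent.Results.MP_f0917b_co.MycielskiBound

open Q223.ML

universe u

theorem result (V : Type u) [Fintype V] [Nonempty V] (G : SimpleGraph V) [DecidableRel G.Adj]
    (t : ℕ) (ht : 1 ≤ t) :
    (∃ f : iterV V t → ℕ, IsLabeling (iterG G t) f ∧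
      ∀ x, f x ≤ (2 ^ t - 1) * (Fintype.card V + 1) + G.maxDegree ^ 2) ∧
    lambda (iterG G t) ≤ (2 ^ t - 1) * (Fintype.card V + 1) + G.maxDegree ^ 2 := by
  classical
  have hΔ : ∀ a, dg G a ≤ G.maxDegree := by
    intro a
    refine le_trans (le_of_eq ?_) (G.degree_le_maxDegree a)
    rw [← SimpleGraph.card_neighborFinset_eq_degree]
    unfold dg
    congr 1
    ext v
    simp
  have hn : G.maxDegree + 1 ≤ Fintype.card V := G.maxDegree_lt_card_verts
  obtain ⟨s, rfl⟩ : ∃ s, t = s + 1 := ⟨t - 1, by omega⟩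
  obtain ⟨f, hf⟩ := lab_iter G hΔ hn s
  exact ⟨⟨f, hf.isLabeling, hf.le⟩, hf.lambda_le⟩

end Pool.Agent.Results.MP_f0917b_co.MycielskiBound
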